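import Pool.Agent.H47.BT.Conc

/-!
Torsion-free barely transitive permutation groups: commensurated subgroups.
-/

set_option autoImplicit false

namespace H47.BT

open Subgroup MulAction

/-- in a torsion-free group, a subgroup which has a central subgroup of finite index is abelian -/
theorem fc_comm {G : Type*} [Group G] (tf : ∀ {g : G} {n : ℕ}, n ≠ 0 → g ^ n = 1 → g = 1)
    {F W : Subgroup G} (hW : W.relIndex F ≠ 0) (hF : F ≤ Cz W) {a b : G} (ha : a ∈ F)
    (hb : b ∈ F) : a * b = b * a := by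
  have hle' : W.subgroupOf F ≤ Subgroup.center F := by
    intro w hw
    rw [Subgroup.mem_center_iff]
    intro g
    apply Subtype.ext
    exact (mem_Cz.1 (hF g.2) _ (Subgroup.mem_subgroupOf.1 hw)).symm
  have hfi : (Subgroup.center F).FiniteIndex :=
    ⟨fun hc => hW (Nat.eq_zero_of_zero_dvd (hc ▸ Subgroup.index_dvd_of_le hle'))⟩
  have key : ∀ u v : F, u * v = v * u := by
    intro u v
    have e1 : MonoidHom.transferCenterPow F (u * v * u⁻¹ * v⁻¹) = 1 := by
      rw [map_mul, map_mul, map_mul, map_inv, map_inv]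
      have hc : ∀ s t : Subgroup.center F, s * t * s⁻¹ * t⁻¹ = 1 := by
        intro s t
        have hst : s * t = t * s := by
          apply Subtype.ext
          exact Subgroup.mem_center_iff.1 t.2 s
        rw [hst]
        group
      exact hc _ _
    have e2 := congrArg (fun t : Subgroup.center F => (t : F)) e1
    simp only [MonoidHom.transferCenterPow_apply] at e2
    have e3 : ((u * v * u⁻¹ * v⁻¹ : F) : G) ^ (Subgroup.center F).index = 1 := by
      have := congrArg (fun t : F => (t : G)) e2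
      simpa using this
    have e4 := tf hfi.index_ne_zero e3
    have e5 : u * v * u⁻¹ * v⁻¹ = 1 := Subtype.ext e4
    have e6 := congrArg (fun t => t * v * u) e5
    simpa [mul_assoc] using e6
  exact congrArg Subtype.val (key ⟨a, ha⟩ ⟨b, hb⟩)

variable {G Ω : Type*} [Group G] [MulAction G Ω]

/-- a nontrivial commensurated subgroup normalized by an open subgroup has trivial centralizer -/
theorem Bare.comm_cz (h : Bare G Ω) (x : Ω) {Y M : Subgroup G}
    (hY : Y.relIndex (stabilizer G x) ≠ 0) (hYM : Nrm Y M) (hM : ∀ g, (cj g M).relIndex M ≠ 0)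
    (hMb : M ≠ ⊥) : Cz M = ⊥ := by
  by_contra hne
  let K : Subgroup G :=
    { carrier := {g | ∃ L : Subgroup G, L.relIndex M ≠ 0 ∧ g ∈ Cz L}
      one_mem' := ⟨M, by rw [relIndex_self]; exact one_ne_zero, one_mem _⟩
      mul_mem' := by
        rintro a b ⟨Y, hY, ha⟩ ⟨Z, hZ, hb⟩
        exact ⟨Y ⊓ Z, relIndex_inf_ne_zero hY hZ, mul_mem (Cz_anti inf_le_left ha)
          (Cz_anti inf_le_right hb)⟩
      inv_mem' := by
        rintro a ⟨Y, hY, ha⟩
        exact ⟨Y, hY, inv_mem ha⟩ }
  have hKn : K.Normal := by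
    refine ⟨fun n hn g => ?_⟩
    obtain ⟨L, hL, ha⟩ := hn
    refine ⟨cj g L, ?_, ?_⟩
    · have h1 : (cj g L).relIndex (cj g M) ≠ 0 := by
        unfold cj
        rw [relIndex_map_map_of_injective]
        · exact hL
        · exact (MulAut.conj g).injective
      exact relIndex_ne_zero_trans h1 (hM g)
    · rw [← cj_Cz, mem_cj]
      have : g⁻¹ * (g * n * g⁻¹) * g = n := by group
      rwa [this]
  have hle : Cz M ≤ K := fun a ha => ⟨M, by rw [relIndex_self]; exact one_ne_zero, ha⟩
  rcases h.simple K hKn with h1 | h1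
  · exact hne (le_bot_iff.1 (h1 ▸ hle))
  have hall : ∀ g : G, ∃ L : Subgroup G, L.relIndex M ≠ 0 ∧ g ∈ Cz L := by
    intro g
    have : g ∈ K := by rw [h1]; trivial
    exact this
  have hab : ∀ a ∈ M, ∀ b ∈ M, a * b = b * a := by
    intro a ha b hb
    obtain ⟨L, hL, haL⟩ := hall a
    obtain ⟨L', hL', hbL⟩ := hall b
    let F : Subgroup G := Subgroup.closure {a, b}
    have hFM : F ≤ M := by
      rw [Subgroup.closure_le]
      rintro c (rfl | rfl)
      · exact ha
      · exact hb
    have hFW : F ≤ Cz (L ⊓ L') := by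
      rw [Subgroup.closure_le]
      rintro c (rfl | rfl)
      · exact Cz_anti inf_le_left haL
      · exact Cz_anti inf_le_right hbL
    have haF : a ∈ F := Subgroup.subset_closure (Or.inl rfl)
    have hbF : b ∈ F := Subgroup.subset_closure (Or.inr rfl)
    refine fc_comm (fun hn hg => h.pw hn hg) (W := L ⊓ L') ?_ hFW haF hbF
    exact fun hc => relIndex_inf_ne_zero hL hL' (relIndex_eq_zero_of_le_right hFM hc)
  apply hMb
  rw [← le_bot_iff, ← h.open_cz x hY]
  intro a ha
  rw [mem_Cz]
  intro y hy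
  obtain ⟨L, hL, hyL⟩ := hall y
  obtain ⟨n, hn, _, han⟩ := exists_pow_mem_of_relIndex_ne_zero hL ha
  have h2 : a ^ n * y = y * a ^ n := mem_Cz.1 hyL _ han.1
  have h3 : y * a * y⁻¹ ∈ M := hYM y hy a ha
  have h4 : (y * a * y⁻¹) ^ n = a ^ n := by
    rw [conj_pow, ← h2]
    group
  have h5 : Commute (y * a * y⁻¹) a⁻¹ := hab _ h3 _ (inv_mem ha)
  have h6 : (y * a * y⁻¹ * a⁻¹) ^ n = 1 := by
    rw [h5.mul_pow, h4, inv_pow, mul_inv_cancel]
  have h7 := h.pw hn.ne' h6
  have := congrArg (fun t => t * a * y) h7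
  simpa [mul_assoc] using this

end H47.BT
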