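import Pool.Agent.H47.BT.Main

/-!
Torsion-free barely transitive permutation groups.
-/

set_option autoImplicit false

namespace H47.BT

open Subgroup MulAction

section
variable {G Ω : Type*} [Group G] [MulAction G Ω]

/-- the hypotheses on the permutation group -/
structure Bare (G Ω : Type*) [Group G] [MulAction G Ω] : Prop where
  faith : FaithfulSMul G Ω
  trans : IsPretransitive G Ω
  inf : Infinite Ω
  bare : ∀ K : Subgroup G, K ≠ ⊤ → ∀ x : Ω, (orbit K x).Finite
  tf : ∀ g : G, IsOfFinOrder g → g = 1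

theorem Bare.rel (h : Bare G Ω) {K : Subgroup G} (hK : K ≠ ⊤) (x : Ω) :
    (stabilizer G x).relIndex K ≠ 0 := by
  have e : (stabilizer G x).subgroupOf K = stabilizer K x := by
    ext a
    exact Iff.rfl
  unfold Subgroup.relIndex
  rw [e, index_stabilizer]
  have hf := h.bare K hK x
  have hne : (orbit K x).Nonempty := ⟨x, mem_orbit_self x⟩
  exact ((Set.ncard_pos hf).2 hne).ne'

theorem Bare.stab (h : Bare G Ω) (x : Ω) : stabilizer G x ≠ ⊤ := by
  intro hc
  have := h.trans
  have := h.inf
  have hsub : Subsingleton Ω := by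
    refine ⟨fun a b => ?_⟩
    have key : ∀ y : Ω, y = x := by
      intro y
      obtain ⟨g, rfl⟩ := exists_smul_eq G x y
      have : g ∈ stabilizer G x := by rw [hc]; trivial
      exact this
    rw [key a, key b]
  exact not_finite Ω

theorem Bare.pw (h : Bare G Ω) {g : G} {n : ℕ} (hn : n ≠ 0) (hg : g ^ n = 1) : g = 1 :=
  h.tf g (isOfFinOrder_iff_pow_eq_one.2 ⟨n, Nat.pos_of_ne_zero hn, hg⟩)

theorem Bare.zpw (h : Bare G Ω) {g : G} {n : ℤ} (hn : n ≠ 0) (hg : g ^ n = 1) : g = 1 :=
  h.tf g (isOfFinOrder_iff_zpow_eq_one.2 ⟨n, hn, hg⟩)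

theorem Bare.exists_point (h : Bare G Ω) : Nonempty Ω :=
  have := h.inf
  inferInstance

theorem Bare.simple (h : Bare G Ω) (N : Subgroup G) (hN : N.Normal) : N = ⊥ ∨ N = ⊤ := by
  by_cases ht : N = ⊤
  · exact Or.inr ht
  left
  obtain ⟨x0⟩ := h.exists_point
  have := h.trans
  have := h.faith
  have hr := h.rel ht x0
  set k := (stabilizer G x0).relIndex N
  have hk : ∀ y ∈ N, y ^ k.factorial ∈ stabilizer G x0 := by
    intro y hy
    obtain ⟨n, hn1, hn2, hn3⟩ := exists_pow_mem_of_relIndex_ne_zero hr hy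
    obtain ⟨m, hm⟩ := Nat.dvd_factorial hn1 hn2
    rw [hm, pow_mul]
    exact pow_mem hn3.1 m
  rw [Subgroup.eq_bot_iff_forall]
  intro x hx
  refine h.pw (Nat.factorial_ne_zero k) ?_
  refine eq_of_smul_eq_smul (α := Ω) fun ω => ?_
  obtain ⟨g, rfl⟩ := exists_smul_eq G x0 ω
  have h1 := hk _ (hN.conj_mem x hx g⁻¹)
  rw [inv_inv] at h1
  have h2 : (g⁻¹ * x * g) ^ k.factorial = g⁻¹ * x ^ k.factorial * g := by
    have := conj_pow (i := k.factorial) (a := g⁻¹) (b := x)
    rwa [inv_inv] at this
  rw [h2, mem_stabilizer_iff] at h1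
  have h3 := congrArg (fun t => g • t) h1
  rw [smul_smul] at h3
  have h4 : g * (g⁻¹ * x ^ k.factorial * g) = x ^ k.factorial * g := by group
  rw [h4, mul_smul] at h3
  rw [h3, one_smul]

theorem Bare.exists_ne (h : Bare G Ω) : ∃ g : G, g ≠ 1 := by
  by_contra hc
  push Not at hc
  obtain ⟨x0⟩ := h.exists_point
  refine h.stab x0 ?_
  rw [eq_top_iff]
  intro g _
  rw [hc g]
  exact one_mem _

theorem Bare.ctr (h : Bare G Ω) : Subgroup.center G = ⊥ := by
  rcases h.simple (Subgroup.center G) inferInstance with h1 | h1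
  · exact h1
  exfalso
  obtain ⟨g, hg⟩ := h.exists_ne
  have hcomm : ∀ a b : G, a * b = b * a := by
    intro a b
    have : b ∈ Subgroup.center G := by rw [h1]; trivial
    exact Subgroup.mem_center_iff.1 this a
  have hn : (Subgroup.zpowers (g ^ 2)).Normal := by
    refine ⟨fun n hn a => ?_⟩
    rw [hcomm a n, mul_assoc, mul_inv_cancel, mul_one]
    exact hn
  rcases h.simple _ hn with h2 | h2
  · have : g ^ 2 = 1 := by
      have h3 := Subgroup.mem_zpowers (g ^ 2)
      rw [h2] at h3
      exact Subgroup.mem_bot.1 h3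
    exact hg (h.pw two_ne_zero this)
  · have h3 : g ∈ Subgroup.zpowers (g ^ 2) := by rw [h2]; trivial
    obtain ⟨k, hk⟩ := Subgroup.mem_zpowers_iff.1 h3
    refine hg (h.zpw (n := 2 * k - 1) (by omega) ?_)
    rw [zpow_sub, zpow_mul, zpow_one]
    have : g ^ (2 : ℤ) = g ^ 2 := zpow_ofNat g 2
    rw [this, hk, mul_inv_cancel]

theorem Bare.cyc (h : Bare G Ω) (g : G) : Subgroup.zpowers g ≠ ⊤ := by
  intro hc
  obtain ⟨a, ha⟩ := h.exists_ne
  apply ha
  have : a ∈ Subgroup.center G := by
    rw [Subgroup.mem_center_iff]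
    intro b
    have h1 : a ∈ Subgroup.zpowers g := by rw [hc]; trivial
    have h2 : b ∈ Subgroup.zpowers g := by rw [hc]; trivial
    obtain ⟨i, rfl⟩ := Subgroup.mem_zpowers_iff.1 h1
    obtain ⟨j, rfl⟩ := Subgroup.mem_zpowers_iff.1 h2
    rw [← zpow_add, ← zpow_add, add_comm]
  rw [h.ctr] at this
  exact Subgroup.mem_bot.1 this

theorem Bare.conj (h : Bare G Ω) (x : Ω) (g : G) {X : Subgroup G}
    (hX : X.relIndex (stabilizer G x) ≠ 0) : (cj g X).relIndex (stabilizer G x) ≠ 0 := by
  have h1 : (cj g X).relIndex (cj g (stabilizer G x)) ≠ 0 := by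
    unfold cj
    rw [relIndex_map_map_of_injective]
    · exact hX
    · exact (MulAut.conj g).injective
  have h2 : cj g (stabilizer G x) = stabilizer G (g • x) := by
    rw [stabilizer_smul_eq_stabilizer_map_conj]
    rfl
  rw [h2] at h1
  exact relIndex_ne_zero_trans h1 (h.rel (h.stab x) _)

theorem Bare.sys (h : Bare G Ω) (hfg : Group.FG G) (x : Ω) :
    Sys (fun X : Subgroup G => X.relIndex (stabilizer G x) ≠ 0) where
  top := by
    rw [relIndex_top_left]
    exact one_ne_zero
  inf := fun h1 h2 => relIndex_inf_ne_zero h1 h2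
  mono := fun h1 h2 => fun hc => h1 (Nat.eq_zero_of_zero_dvd (hc ▸ relIndex_dvd_of_le_left _ h2))
  conj := fun g _ hX => h.conj x g hX
  fin := fun hX hP => relIndex_ne_zero_trans hX (h.rel hP x)
  simple := h.simple
  tf := fun hn hg => h.pw hn hg
  cent := h.ctr
  cyc := h.cyc
  fg := Group.fg_iff.1 hfg

/-- elements commuting with a subgroup of finite index of a point stabiliser are trivial -/
theorem Bare.open_cz (h : Bare G Ω) (x : Ω) {X : Subgroup G}
    (hX : X.relIndex (stabilizer G x) ≠ 0) : Cz X = ⊥ := by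
  classical
  -- the normal subgroup of all elements commuting with an open subgroup
  let K : Subgroup G :=
    { carrier := {g | ∃ Y : Subgroup G, Y.relIndex (stabilizer G x) ≠ 0 ∧ g ∈ Cz Y}
      one_mem' := ⟨X, hX, one_mem _⟩
      mul_mem' := by
        rintro a b ⟨Y, hY, ha⟩ ⟨Z, hZ, hb⟩
        exact ⟨Y ⊓ Z, relIndex_inf_ne_zero hY hZ, mul_mem (Cz_anti inf_le_left ha)
          (Cz_anti inf_le_right hb)⟩
      inv_mem' := by
        rintro a ⟨Y, hY, ha⟩
        exact ⟨Y, hY, inv_mem ha⟩ }
  have hKn : K.Normal := by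
    refine ⟨fun n hn g => ?_⟩
    obtain ⟨Y, hY, ha⟩ := hn
    refine ⟨cj g Y, h.conj x g hY, ?_⟩
    rw [← cj_Cz, mem_cj]
    have : g⁻¹ * (g * n * g⁻¹) * g = n := by group
    rwa [this]
  have hle : Cz X ≤ K := fun a ha => ⟨X, hX, ha⟩
  rcases h.simple K hKn with h1 | h1
  · exact le_bot_iff.1 (h1 ▸ hle)
  exfalso
  -- the group is abelian
  have hne : ∀ Y : Subgroup G, Y.relIndex (stabilizer G x) ≠ 0 → Y ≠ ⊥ := by
    rintro Y hY rfl
    -- all proper subgroups are finite, hence trivial
    have hbot : ∀ P : Subgroup G, P ≠ ⊤ → P = ⊥ := by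
      intro P hP
      have h2 := relIndex_ne_zero_trans hY (h.rel hP x)
      rw [Subgroup.eq_bot_iff_forall]
      intro a ha
      obtain ⟨n, hn, _, han⟩ := exists_pow_mem_of_relIndex_ne_zero h2 ha
      exact h.pw hn.ne' (Subgroup.mem_bot.1 han.1)
    obtain ⟨g, hg⟩ := h.exists_ne
    have h3 := hbot _ (h.cyc g)
    have h4 := Subgroup.mem_zpowers g
    rw [h3] at h4
    exact hg (Subgroup.mem_bot.1 h4)
  have hab : ∀ a b : G, a * b = b * a := by
    intro a b
    have haK : a ∈ K := by rw [h1]; trivial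
    have hbK : b ∈ K := by rw [h1]; trivial
    obtain ⟨Y, hY, ha⟩ := haK
    obtain ⟨Z, hZ, hb⟩ := hbK
    let W := Y ⊓ Z
    have hW : W.relIndex (stabilizer G x) ≠ 0 := relIndex_inf_ne_zero hY hZ
    let F : Subgroup G := Subgroup.closure {a, b}
    have hFW : F ≤ Cz W := by
      rw [Subgroup.closure_le]
      rintro c (rfl | rfl)
      · exact Cz_anti inf_le_left ha
      · exact Cz_anti inf_le_right hb
    have haF : a ∈ F := Subgroup.subset_closure (Or.inl rfl)
    have hbF : b ∈ F := Subgroup.subset_closure (Or.inr rfl)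
    by_cases hF : F = ⊤
    · exfalso
      obtain ⟨w, hw, hw1⟩ := exists_ne_one (hne W hW)
      apply hw1
      have : w ∈ Subgroup.center G := by
        rw [Subgroup.mem_center_iff]
        intro g
        have hg : g ∈ Cz W := hFW (by rw [hF]; trivial)
        exact (mem_Cz.1 hg w hw).symm
      rw [h.ctr] at this
      exact Subgroup.mem_bot.1 this
    · have hWF : W.relIndex F ≠ 0 := relIndex_ne_zero_trans hW (h.rel hF x)
      have hle' : W.subgroupOf F ≤ Subgroup.center F := by
        intro w hw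
        rw [Subgroup.mem_center_iff]
        intro g
        apply Subtype.ext
        exact (mem_Cz.1 (hFW g.2) _ (Subgroup.mem_subgroupOf.1 hw)).symm
      have hfi : (Subgroup.center F).FiniteIndex :=
        ⟨fun hc => hWF (Nat.eq_zero_of_zero_dvd (hc ▸ Subgroup.index_dvd_of_le hle'))⟩
      have key : ∀ u v : F, u * v = v * u := by
        intro u v
        have e1 : MonoidHom.transferCenterPow F (u * v * u⁻¹ * v⁻¹) = 1 := by
          rw [map_mul, map_mul, map_mul, map_inv, map_inv]
          have hc : ∀ s t : Subgroup.center F, s * t * s⁻¹ * t⁻¹ = 1 := by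
            intro s t
            have hst : s * t = t * s := by
              apply Subtype.ext
              exact Subgroup.mem_center_iff.1 t.2 s
            rw [hst]
            group
          exact hc _ _
        have e2 := congrArg (fun t : Subgroup.center F => (t : F)) e1
        simp only [MonoidHom.transferCenterPow_apply] at e2
        have e3 : ((u * v * u⁻¹ * v⁻¹ : F) : G) ^ (Subgroup.center F).index = 1 := by
          have := congrArg (fun t : F => (t : G)) e2
          simpa using this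
        have e4 := h.pw hfi.index_ne_zero e3
        have e5 : u * v * u⁻¹ * v⁻¹ = 1 := Subtype.ext e4
        have e6 := congrArg (fun t => t * v * u) e5
        simpa [mul_assoc] using e6
      exact congrArg Subtype.val (key ⟨a, haF⟩ ⟨b, hbF⟩)
  obtain ⟨g, hg⟩ := h.exists_ne
  apply hg
  have : g ∈ Subgroup.center G := Subgroup.mem_center_iff.2 fun a => hab a g
  rw [h.ctr] at this
  exact Subgroup.mem_bot.1 this

end

end H47.BT
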