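import Mathlib

/-!
Systems of open subgroups of a simple torsion-free group all of whose proper subgroups are
elliptic; locally normal subgroups and their centralizers.
-/

set_option autoImplicit false

namespace H47.BT

open Subgroup

variable {G : Type*} [Group G]

/-- the conjugate `g X g⁻¹` -/
def cj (g : G) (X : Subgroup G) : Subgroup G := X.map (MulAut.conj g).toMonoidHom

theorem mem_cj {g x : G} {X : Subgroup G} : x ∈ cj g X ↔ g⁻¹ * x * g ∈ X := by
  unfold cj
  rw [Subgroup.mem_map]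
  constructor
  · rintro ⟨y, hy, rfl⟩
    have : g⁻¹ * (MulAut.conj g).toMonoidHom y * g = y := by
      simp [mul_assoc]
    rwa [this]
  · intro h
    exact ⟨_, h, by simp [mul_assoc]⟩

theorem cj_mul (g h : G) (X : Subgroup G) : cj (g * h) X = cj g (cj h X) := by
  ext x
  rw [mem_cj, mem_cj, mem_cj]
  simp only [mul_inv_rev, mul_assoc]

theorem cj_one (X : Subgroup G) : cj 1 X = X := by
  ext x
  rw [mem_cj]
  simp

theorem cj_mono (g : G) {X Y : Subgroup G} (h : X ≤ Y) : cj g X ≤ cj g Y := by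
  intro x hx
  rw [mem_cj] at hx ⊢
  exact h hx

theorem cj_inv_cj (g : G) (X : Subgroup G) : cj g⁻¹ (cj g X) = X := by
  rw [← cj_mul, inv_mul_cancel, cj_one]

theorem cj_cj_inv (g : G) (X : Subgroup G) : cj g (cj g⁻¹ X) = X := by
  rw [← cj_mul, mul_inv_cancel, cj_one]

theorem cj_le_iff (g : G) {X Y : Subgroup G} : cj g X ≤ cj g Y ↔ X ≤ Y := by
  refine ⟨fun h => ?_, cj_mono g⟩
  have := cj_mono g⁻¹ h
  rwa [cj_inv_cj, cj_inv_cj] at this

theorem cj_inj (g : G) {X Y : Subgroup G} (h : cj g X = cj g Y) : X = Y := by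
  rw [← cj_inv_cj g X, h, cj_inv_cj]

theorem cj_lt_iff (g : G) {X Y : Subgroup G} : cj g X < cj g Y ↔ X < Y := by
  rw [lt_iff_le_not_ge, lt_iff_le_not_ge, cj_le_iff, cj_le_iff]

theorem cj_inf (g : G) (X Y : Subgroup G) : cj g (X ⊓ Y) = cj g X ⊓ cj g Y := by
  ext x
  simp only [Subgroup.mem_inf, mem_cj]

theorem cj_top (g : G) : cj g (⊤ : Subgroup G) = ⊤ := by
  ext x
  simp [mem_cj]

theorem cj_bot (g : G) : cj g (⊥ : Subgroup G) = ⊥ := by
  ext x
  rw [mem_cj, Subgroup.mem_bot, Subgroup.mem_bot]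
  constructor
  · intro h
    have : x = g * (g⁻¹ * x * g) * g⁻¹ := by group
    rw [this, h]
    group
  · rintro rfl
    group

/-- the centralizer -/
abbrev Cz (X : Subgroup G) : Subgroup G := Subgroup.centralizer (X : Set G)

theorem mem_Cz {X : Subgroup G} {g : G} : g ∈ Cz X ↔ ∀ h ∈ X, h * g = g * h :=
  Subgroup.mem_centralizer_iff

theorem Cz_anti {X Y : Subgroup G} (h : X ≤ Y) : Cz Y ≤ Cz X := Subgroup.centralizer_le h

theorem le_CzCz (X : Subgroup G) : X ≤ Cz (Cz X) := by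
  intro x hx
  rw [mem_Cz]
  intro h hh
  exact (mem_Cz.1 hh x hx).symm

theorem CzCzCz (X : Subgroup G) : Cz (Cz (Cz X)) ≤ Cz X := Cz_anti (le_CzCz X)

theorem cj_Cz (g : G) (X : Subgroup G) : cj g (Cz X) = Cz (cj g X) := by
  ext x
  rw [mem_cj, mem_Cz, mem_Cz]
  constructor
  · intro h y hy
    have h1 := h _ (mem_cj.1 hy)
    have h2 : g * (g⁻¹ * y * g * (g⁻¹ * x * g)) * g⁻¹ = g * (g⁻¹ * x * g * (g⁻¹ * y * g)) * g⁻¹ := by
      rw [h1]
    have e1 : g * (g⁻¹ * y * g * (g⁻¹ * x * g)) * g⁻¹ = y * x := by group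
    have e2 : g * (g⁻¹ * x * g * (g⁻¹ * y * g)) * g⁻¹ = x * y := by group
    rw [e1, e2] at h2
    exact h2
  · intro h y hy
    have h1 : g * y * g⁻¹ ∈ cj g X := by
      rw [mem_cj]
      have : g⁻¹ * (g * y * g⁻¹) * g = y := by group
      rwa [this]
    have h2 := h _ h1
    have h3 : g⁻¹ * (g * y * g⁻¹ * x) * g = g⁻¹ * (x * (g * y * g⁻¹)) * g := by rw [h2]
    have e1 : g⁻¹ * (g * y * g⁻¹ * x) * g = y * (g⁻¹ * x * g) := by group
    have e2 : g⁻¹ * (x * (g * y * g⁻¹)) * g = g⁻¹ * x * g * y := by group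
    rw [e1, e2] at h3
    exact h3

/-- `X` normalizes `M` -/
def Nrm (X M : Subgroup G) : Prop := ∀ x ∈ X, ∀ m ∈ M, x * m * x⁻¹ ∈ M

theorem Nrm.cz {X M : Subgroup G} (h : Nrm X M) : Nrm X (Cz M) := by
  intro x hx c hc
  rw [mem_Cz] at hc ⊢
  intro m hm
  have h1 := hc _ (h x⁻¹ (inv_mem hx) m hm)
  rw [inv_inv] at h1
  have h3 : x * (x⁻¹ * m * x * c) * x⁻¹ = x * (c * (x⁻¹ * m * x)) * x⁻¹ := by rw [h1]
  have e1 : x * (x⁻¹ * m * x * c) * x⁻¹ = m * (x * c * x⁻¹) := by group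
  have e2 : x * (c * (x⁻¹ * m * x)) * x⁻¹ = x * c * x⁻¹ * m := by group
  rw [e1, e2] at h3
  exact h3

theorem Nrm.inf {X Y M N : Subgroup G} (h : Nrm X M) (h' : Nrm Y N) :
    Nrm (X ⊓ Y) (M ⊓ N) := by
  intro x hx m hm
  exact ⟨h x hx.1 m hm.1, h' x hx.2 m hm.2⟩

theorem Nrm.mono {X Y M : Subgroup G} (h : Nrm X M) (h' : Y ≤ X) : Nrm Y M :=
  fun x hx m hm => h x (h' hx) m hm

theorem Nrm.self (X : Subgroup G) : Nrm X X :=
  fun x hx m hm => mul_mem (mul_mem hx hm) (inv_mem hx)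

theorem Nrm.cj {X M : Subgroup G} (h : Nrm X M) (g : G) : Nrm (cj g X) (cj g M) := by
  intro x hx m hm
  rw [mem_cj] at hx hm ⊢
  have h1 := h _ hx _ hm
  have e : g⁻¹ * x * g * (g⁻¹ * m * g) * (g⁻¹ * x * g)⁻¹ = g⁻¹ * (x * m * x⁻¹) * g := by group
  rwa [e] at h1

theorem Nrm.cj_eq {X M : Subgroup G} (h : Nrm X M) {x : G} (hx : x ∈ X) :
    H47.BT.cj x M = M := by
  ext m
  rw [mem_cj]
  constructor
  · intro hm
    have := h x hx _ hm
    have e : x * (x⁻¹ * m * x) * x⁻¹ = m := by group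
    rwa [e] at this
  · intro hm
    have := h x⁻¹ (inv_mem hx) m hm
    rwa [inv_inv] at this

/-- the axioms: `Op` is a system of open subgroups, the group is simple, torsion-free, finitely
generated, all proper subgroups are elliptic -/
structure Sys (Op : Subgroup G → Prop) : Prop where
  top : Op ⊤
  inf : ∀ {X Y : Subgroup G}, Op X → Op Y → Op (X ⊓ Y)
  mono : ∀ {X Y : Subgroup G}, Op X → X ≤ Y → Op Y
  conj : ∀ (g : G) {X : Subgroup G}, Op X → Op (cj g X)
  fin : ∀ {X P : Subgroup G}, Op X → P ≠ ⊤ → X.relIndex P ≠ 0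
  simple : ∀ N : Subgroup G, N.Normal → N = ⊥ ∨ N = ⊤
  tf : ∀ {g : G} {n : ℕ}, n ≠ 0 → g ^ n = 1 → g = 1
  cent : Subgroup.center G = ⊥
  cyc : ∀ g : G, Subgroup.zpowers g ≠ ⊤
  fg : ∃ S : Set G, Subgroup.closure S = ⊤ ∧ S.Finite

variable {Op : Subgroup G → Prop}

theorem Sys.pow (h : Sys Op) {X P : Subgroup G} (hX : Op X) (hP : P ≠ ⊤) {x : G} (hx : x ∈ P) :
    ∃ n : ℕ, n ≠ 0 ∧ x ^ n ∈ P ⊓ X := by
  obtain ⟨n, h1, _, h2⟩ := exists_pow_mem_of_relIndex_ne_zero (h.fin hX hP) hx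
  exact ⟨n, h1.ne', h2.2, h2.1⟩

/-- locally normal subgroups -/
def LN (Op : Subgroup G → Prop) (M : Subgroup G) : Prop := ∃ X, Op X ∧ Nrm X M

theorem LN.cz {M : Subgroup G} (h : LN Op M) : LN Op (Cz M) := by
  obtain ⟨X, h1, h2⟩ := h
  exact ⟨X, h1, h2.cz⟩

theorem LN.inf (hs : Sys Op) {M N : Subgroup G} (h : LN Op M) (h' : LN Op N) :
    LN Op (M ⊓ N) := by
  obtain ⟨X, h1, h2⟩ := h
  obtain ⟨Y, h3, h4⟩ := h'
  exact ⟨X ⊓ Y, hs.inf h1 h3, h2.inf h4⟩

theorem LN.cj (hs : Sys Op) {M : Subgroup G} (h : LN Op M) (g : G) : LN Op (cj g M) := by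
  obtain ⟨X, h1, h2⟩ := h
  exact ⟨_, hs.conj g h1, h2.cj g⟩

theorem LN.op {M : Subgroup G} (h : Op M) : LN Op M := ⟨M, h, Nrm.self M⟩

/-- elements commuting with all generators are trivial -/
theorem Sys.gen (h : Sys Op) {T : Set G} (hT : Subgroup.closure T = ⊤) {z : G}
    (hz : ∀ a ∈ T, z * a = a * z) : z = 1 := by
  have h1 : T ⊆ (Subgroup.centralizer {z} : Subgroup G) := by
    intro a ha
    rw [SetLike.mem_coe, Subgroup.mem_centralizer_iff]
    intro b hb
    rw [Set.mem_singleton_iff.1 hb]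
    exact hz a ha
  have h2 : (⊤ : Subgroup G) ≤ Subgroup.centralizer {z} := by
    rw [← hT]
    exact (Subgroup.closure_le _).2 h1
  have h3 : z ∈ Subgroup.center G := by
    rw [Subgroup.mem_center_iff]
    intro g
    have := Subgroup.mem_centralizer_iff.1 (h2 (Subgroup.mem_top g)) z rfl
    exact this.symm
  rw [h.cent] at h3
  exact Subgroup.mem_bot.1 h3

theorem Sys.cz_ne_top (h : Sys Op) {M : Subgroup G} (hM : M ≠ ⊥) : Cz M ≠ ⊤ := by
  intro hc
  apply hM
  rw [Subgroup.eq_bot_iff_forall]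
  intro m hm
  refine h.gen (T := Set.univ) (by simp) fun a _ => ?_
  have : a ∈ Cz M := by rw [hc]; trivial
  exact mem_Cz.1 this m hm

theorem Sys.cz_top (h : Sys Op) : Cz (⊤ : Subgroup G) = ⊥ := by
  rw [Subgroup.eq_bot_iff_forall]
  intro z hz
  refine h.gen (T := Set.univ) (by simp) fun a _ => ?_
  exact (mem_Cz.1 hz a trivial).symm

/-- a finitely generated group generated by `U` is generated by a finite subset of `U` -/
theorem fin_gen {U : Set G} (hU : Subgroup.closure U = ⊤) {S : Set G} (hS : S.Finite)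
    (hS' : Subgroup.closure S = ⊤) :
    ∃ T : Set G, T ⊆ U ∧ T.Finite ∧ Subgroup.closure T = ⊤ := by
  have key : ∀ x : G, ∃ T : Set G, T ⊆ U ∧ T.Finite ∧ x ∈ Subgroup.closure T := by
    intro x
    have hx : x ∈ Subgroup.closure U := by rw [hU]; trivial
    induction hx using Subgroup.closure_induction with
    | mem x hx => exact ⟨{x}, by simpa using hx, Set.finite_singleton x,
        Subgroup.subset_closure rfl⟩
    | one => exact ⟨∅, Set.empty_subset _, Set.finite_empty, one_mem _⟩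
    | mul x y _ _ h1 h2 =>
      obtain ⟨T, a1, a2, a3⟩ := h1
      obtain ⟨T', b1, b2, b3⟩ := h2
      exact ⟨T ∪ T', Set.union_subset a1 b1, a2.union b2,
        mul_mem (Subgroup.closure_mono Set.subset_union_left a3)
          (Subgroup.closure_mono Set.subset_union_right b3)⟩
    | inv x _ h1 =>
      obtain ⟨T, a1, a2, a3⟩ := h1
      exact ⟨T, a1, a2, inv_mem a3⟩
  choose f hf using key
  refine ⟨⋃ s ∈ S, f s, ?_, ?_, ?_⟩
  · exact Set.iUnion₂_subset fun s _ => (hf s).1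
  · exact hS.biUnion fun s _ => (hf s).2.1
  · rw [eq_top_iff, ← hS', Subgroup.closure_le]
    intro s hs
    exact Subgroup.closure_mono (Set.subset_biUnion_of_mem (u := f) hs) (hf s).2.2

theorem Sys.biInf (h : Sys Op) (T : Finset G) (f : G → Subgroup G) (hf : ∀ a, Op (f a)) :
    Op (⨅ a ∈ T, f a) := by
  classical
  induction T using Finset.induction_on with
  | empty => simpa using h.top
  | insert a T _ ih =>
    rw [Finset.iInf_insert]
    exact h.inf (hf a) ih

theorem exists_ne_one {A : Subgroup G} (h : A ≠ ⊥) : ∃ x ∈ A, x ≠ 1 := by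
  by_contra hc
  push Not at hc
  exact h ((Subgroup.eq_bot_iff_forall A).2 hc)

/-- **No abelian locally normal subgroups** -/
theorem Sys.na (h : Sys Op) {A : Subgroup G} (hA : LN Op A)
    (hab : ∀ x ∈ A, ∀ y ∈ A, x * y = y * x) : A = ⊥ := by
  classical
  by_contra hne
  obtain ⟨X, hX, hXA⟩ := hA
  have hAt : A ≠ ⊤ := by
    rintro rfl
    apply hne
    rw [Subgroup.eq_bot_iff_forall]
    intro z _
    exact h.gen (T := Set.univ) (by simp) fun a _ => hab z trivial a trivial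
  have hnc : Subgroup.normalClosure (A : Set G) = ⊤ := by
    rcases h.simple _ (Subgroup.normalClosure_normal (s := (A : Set G))) with h1 | h1
    · exfalso
      apply hne
      rw [Subgroup.eq_bot_iff_forall]
      intro x hx
      have : x ∈ Subgroup.normalClosure (A : Set G) := Subgroup.subset_normalClosure hx
      rw [h1] at this
      exact Subgroup.mem_bot.1 this
    · exact h1
  obtain ⟨S, hS1, hS2⟩ := h.fg
  obtain ⟨T0, hTU, hTf, hT⟩ := fin_gen (U := Group.conjugatesOfSet (A : Set G)) hnc hS2 hS1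
  obtain ⟨T, rfl⟩ := hTf.exists_finset_coe
  have hg : ∀ a : G, ∃ g : G, a ∈ T → a ∈ cj g A := by
    intro a
    by_cases ha : a ∈ T
    · obtain ⟨b, hb, hab⟩ := Group.mem_conjugatesOfSet_iff.1 (hTU ha)
      obtain ⟨c, hc⟩ := isConj_iff.1 hab
      refine ⟨c, fun _ => ?_⟩
      rw [mem_cj, ← hc]
      have : c⁻¹ * (c * b * c⁻¹) * c = b := by group
      rw [this]
      exact hb
    · exact ⟨1, fun h' => absurd h' ha⟩
  choose g hg using hg
  have hAc : ∀ a, ∀ x ∈ cj (g a) A, ∀ y ∈ cj (g a) A, x * y = y * x := by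
    intro a x hx y hy
    have h1 := hab _ (mem_cj.1 hx) _ (mem_cj.1 hy)
    have h3 : g a * ((g a)⁻¹ * x * g a * ((g a)⁻¹ * y * g a)) * (g a)⁻¹ =
      g a * ((g a)⁻¹ * y * g a * ((g a)⁻¹ * x * g a)) * (g a)⁻¹ := by rw [h1]
    have e1 : g a * ((g a)⁻¹ * x * g a * ((g a)⁻¹ * y * g a)) * (g a)⁻¹ = x * y := by group
    have e2 : g a * ((g a)⁻¹ * y * g a * ((g a)⁻¹ * x * g a)) * (g a)⁻¹ = y * x := by group
    rw [e1, e2] at h3
    exact h3
  let Y : Subgroup G := ⨅ a ∈ T, cj (g a) X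
  have hY : Op Y := h.biInf T _ fun a => h.conj (g a) hX
  have hYn : ∀ a ∈ T, Nrm Y (cj (g a) A) := fun a ha =>
    (hXA.cj (g a)).mono (iInf₂_le a ha)
  have key : ∀ T' : Finset G, T' ⊆ T → ∃ z ∈ Y, z ≠ 1 ∧
      ∀ a ∈ T', ∀ b ∈ cj (g a) A, b ∈ Y → z * b = b * z := by
    intro T'
    induction T' using Finset.induction_on with
    | empty =>
      intro _
      obtain ⟨x, hx, hx1⟩ := exists_ne_one hne
      obtain ⟨n, hn, hxn⟩ := h.pow hY hAt hx
      exact ⟨_, hxn.2, fun hc => hx1 (h.tf hn hc), by simp⟩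
    | insert a T' _ ih =>
      intro hsub
      obtain ⟨z, hzY, hz1, hz⟩ := ih fun x hx => hsub (Finset.mem_insert_of_mem hx)
      have haT : a ∈ T := hsub (Finset.mem_insert_self a T')
      by_cases hc : ∀ b ∈ cj (g a) A, b ∈ Y → z * b = b * z
      · refine ⟨z, hzY, hz1, fun a' ha' => ?_⟩
        rcases Finset.mem_insert.1 ha' with rfl | ha'
        · exact hc
        · exact hz a' ha'
      · push Not at hc
        obtain ⟨b, hb, hbY, hne'⟩ := hc
        refine ⟨z * b * z⁻¹ * b⁻¹, mul_mem (mul_mem (mul_mem hzY hbY) (inv_mem hzY)) (inv_mem hbY),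
          fun hc => hne' ?_, fun a' ha' c hc hcY => ?_⟩
        · have := congrArg (fun t => t * b * z) hc
          simpa [mul_assoc] using this
        · rcases Finset.mem_insert.1 ha' with rfl | ha'
          · exact hAc _ _ (mul_mem (hYn _ haT z hzY b hb) (inv_mem hb)) _ hc
          · have ha'T : a' ∈ T := hsub (Finset.mem_insert_of_mem ha')
            have h1 : z * (b⁻¹ * c * b) = b⁻¹ * c * b * z := by
              refine hz a' ha' _ ?_ (mul_mem (mul_mem (inv_mem hbY) hcY) hbY)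
              have := hYn a' ha'T b⁻¹ (inv_mem hbY) c hc
              rwa [inv_inv] at this
            have h2 : z * c = c * z := hz a' ha' c hc hcY
            have h2' : z⁻¹ * c = c * z⁻¹ := by
              have := congrArg (fun t => z⁻¹ * t * z⁻¹) h2
              have e1 : z⁻¹ * (z * c) * z⁻¹ = c * z⁻¹ := by group
              have e2 : z⁻¹ * (c * z) * z⁻¹ = z⁻¹ * c := by group
              rw [e1, e2] at this
              exact this.symm
            have h1' : b * z⁻¹ * b⁻¹ * c = c * (b * z⁻¹ * b⁻¹) := by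
              have := congrArg (fun t => b * z⁻¹ * t * z⁻¹ * b⁻¹) h1
              have e1 : b * z⁻¹ * (z * (b⁻¹ * c * b)) * z⁻¹ * b⁻¹ = c * (b * z⁻¹ * b⁻¹) := by
                group
              have e2 : b * z⁻¹ * (b⁻¹ * c * b * z) * z⁻¹ * b⁻¹ = b * z⁻¹ * b⁻¹ * c := by
                group
              rw [e1, e2] at this
              exact this.symm
            calc z * b * z⁻¹ * b⁻¹ * c = z * (b * z⁻¹ * b⁻¹ * c) := by group
              _ = z * (c * (b * z⁻¹ * b⁻¹)) := by rw [h1']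
              _ = (z * c) * (b * z⁻¹ * b⁻¹) := by group
              _ = (c * z) * (b * z⁻¹ * b⁻¹) := by rw [h2]
              _ = c * (z * b * z⁻¹ * b⁻¹) := by group
  obtain ⟨z, hzY, hz1, hz⟩ := key T (Finset.Subset.refl T)
  refine hz1 (h.gen hT fun a ha => ?_)
  have ha : a ∈ T := ha
  have haA : a ∈ cj (g a) A := hg a ha
  have hcjt : cj (g a) A ≠ ⊤ := by
    intro hc
    apply hAt
    apply cj_inj (g a)
    rw [hc, cj_top]
  obtain ⟨n, hn, han⟩ := h.pow hY hcjt haA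
  have h1 : z * a * z⁻¹ ∈ cj (g a) A := hYn a ha z hzY a haA
  have h2 : (z * a * z⁻¹) ^ n = a ^ n := by
    rw [conj_pow, hz a ha _ han.1 han.2]
    group
  have h3 : Commute (z * a * z⁻¹) a⁻¹ := hAc a _ h1 _ (inv_mem haA)
  have h4 : (z * a * z⁻¹ * a⁻¹) ^ n = 1 := by
    rw [h3.mul_pow, h2, inv_pow, mul_inv_cancel]
  have h5 := h.tf hn h4
  have := congrArg (fun t => t * a * z) h5
  simpa [mul_assoc] using this

end H47.BT
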