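import Pool.Agent.H47.BT.Core

/-!
Commuting locally normal subgroups.
-/

set_option autoImplicit false

namespace H47.BT

open Subgroup

variable {G : Type*} [Group G] {Op : Subgroup G → Prop}

/-- the centre of a locally normal subgroup is trivial -/
theorem Sys.ctr (h : Sys Op) {E : Subgroup G} (hE : LN Op E) : Cz E ⊓ E = ⊥ := by
  refine h.na (hE.cz.inf h hE) ?_
  intro x hx y hy
  exact (mem_Cz.1 hx.1 y hy.2).symm

theorem Sys.b1 (h : Sys Op) {T Y : Subgroup G} (hT : LN Op T) (hTt : T ≠ ⊤) (hY : Op Y) :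
    Cz (T ⊓ Y) ⊓ T = ⊥ := by
  rw [Subgroup.eq_bot_iff_forall]
  intro c hc
  obtain ⟨hc1, hc2⟩ := Subgroup.mem_inf.1 hc
  obtain ⟨n, hn, hcn⟩ := h.pow hY hTt hc2
  refine h.tf hn ?_
  have h1 : c ^ n ∈ Cz (T ⊓ Y) ⊓ (T ⊓ Y) := ⟨pow_mem hc1 n, hcn⟩
  rw [h.ctr (hT.inf h (LN.op hY))] at h1
  exact Subgroup.mem_bot.1 h1

theorem conj_centralizes {t x u : G} (h : (t⁻¹ * u * t) * x = x * (t⁻¹ * u * t)) :
    u * (t * x * t⁻¹) = t * x * t⁻¹ * u := by
  have h3 : t * ((t⁻¹ * u * t) * x) * t⁻¹ = t * (x * (t⁻¹ * u * t)) * t⁻¹ := by rw [h]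
  have e1 : t * ((t⁻¹ * u * t) * x) * t⁻¹ = u * (t * x * t⁻¹) := by group
  have e2 : t * (x * (t⁻¹ * u * t)) * t⁻¹ = t * x * t⁻¹ * u := by group
  rwa [e1, e2] at h3

/-- if `x` centralizes `T ⊓ Y` and `t ∈ T` then `t x t⁻¹` centralizes `T ⊓ (Y ⊓ t Y t⁻¹)` -/
theorem cz_conj {T Y : Subgroup G} {x t : G} (hx : x ∈ Cz (T ⊓ Y)) (ht : t ∈ T) :
    t * x * t⁻¹ ∈ Cz (T ⊓ (Y ⊓ cj t Y)) := by
  rw [mem_Cz]
  intro u hu
  obtain ⟨hu1, hu⟩ := Subgroup.mem_inf.1 hu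
  obtain ⟨hu2, hu3⟩ := Subgroup.mem_inf.1 hu
  refine conj_centralizes (mem_Cz.1 hx _ (Subgroup.mem_inf.2 ⟨mul_mem (mul_mem (inv_mem ht) hu1) ht, ?_⟩))
  exact mem_cj.1 hu3

theorem Sys.b2 (h : Sys Op) {T X Y : Subgroup G} (hX : Op X) (hXT : Nrm X T) (hTt : T ≠ ⊤)
    (hY : Op Y) {x t : G} (hx : x ∈ Cz (T ⊓ Y)) (hx' : x ∈ X) (ht : t ∈ T) : t * x = x * t := by
  have h1 : x * t * x⁻¹ * t⁻¹ ∈ T := mul_mem (hXT x hx' t ht) (Subgroup.inv_mem _ ht)
  have h2 : x ∈ Cz (T ⊓ (Y ⊓ cj t Y)) :=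
    Cz_anti (inf_le_inf_left _ inf_le_left) hx
  have h3 : t * x⁻¹ * t⁻¹ ∈ Cz (T ⊓ (Y ⊓ cj t Y)) := cz_conj (Subgroup.inv_mem _ hx) ht
  have h4 : x * t * x⁻¹ * t⁻¹ ∈ Cz (T ⊓ (Y ⊓ cj t Y)) ⊓ T := by
    refine ⟨?_, h1⟩
    have := mul_mem h2 h3
    have e : x * (t * x⁻¹ * t⁻¹) = x * t * x⁻¹ * t⁻¹ := by group
    rwa [e] at this
  rw [h.b1 ⟨X, hX, hXT⟩ hTt (h.inf hY (h.conj t hY))] at h4
  have h5 := Subgroup.mem_bot.1 h4
  have h6 : x * t * x⁻¹ * t⁻¹ * t * x = 1 * t * x := by rw [h5]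
  have e : x * t * x⁻¹ * t⁻¹ * t * x = x * t := by group
  rw [e, one_mul] at h6
  exact h6.symm

/-- centralizers do not change if the subgroup is replaced by an open subgroup of it -/
theorem Sys.cen (h : Sys Op) {T Y : Subgroup G} (hT : LN Op T) (hTt : T ≠ ⊤) (hY : Op Y) :
    Cz (T ⊓ Y) ≤ Cz T := by
  obtain ⟨X, hX, hXT⟩ := hT
  intro x hx
  rw [mem_Cz]
  intro t ht
  by_cases ht1 : t = 1
  · rw [ht1, one_mul, mul_one]
  let Y1 := Y ⊓ cj t Y
  have hY1 : Op Y1 := h.inf hY (h.conj t hY)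
  let E := T ⊓ Y1
  have hE : LN Op E := LN.inf h ⟨X, hX, hXT⟩ (LN.op hY1)
  have hEne : E ≠ ⊥ := by
    intro hc
    obtain ⟨n, hn, htn⟩ := h.pow hY1 hTt ht
    have : t ^ n ∈ E := htn
    rw [hc] at this
    exact ht1 (h.tf hn (Subgroup.mem_bot.1 this))
  let C := Cz E
  have hCt : C ≠ ⊤ := h.cz_ne_top hEne
  have hxC : x ∈ C := Cz_anti (inf_le_inf_left _ inf_le_left) hx
  have htC : t * x * t⁻¹ ∈ C := cz_conj hx ht
  let Y2 := X ⊓ cj x⁻¹ X
  have hY2 : Op Y2 := h.inf hX (h.conj _ hX)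
  have hd : x⁻¹ * (t * x * t⁻¹) ∈ C := mul_mem (inv_mem hxC) htC
  have hdE : ∀ u ∈ C ⊓ Y2, u * (x⁻¹ * (t * x * t⁻¹)) = x⁻¹ * (t * x * t⁻¹) * u := by
    intro u hu
    obtain ⟨hu1, hu⟩ := Subgroup.mem_inf.1 hu
    obtain ⟨hu2, hu3⟩ := Subgroup.mem_inf.1 hu
    have hu4 : x * u * x⁻¹ ∈ X := by
      have := mem_cj.1 hu3
      rwa [inv_inv] at this
    have h1 : t * u = u * t := h.b2 hX hXT hTt hY1 hu1 hu2 ht
    have h2 : t * (x * u * x⁻¹) = x * u * x⁻¹ * t :=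
      h.b2 hX hXT hTt hY1 (mul_mem (mul_mem hxC hu1) (inv_mem hxC)) hu4 ht
    have h1' : t⁻¹ * u = u * t⁻¹ := by
      have h3 : t⁻¹ * (t * u) * t⁻¹ = t⁻¹ * (u * t) * t⁻¹ := by rw [h1]
      have e1 : t⁻¹ * (t * u) * t⁻¹ = u * t⁻¹ := by group
      have e2 : t⁻¹ * (u * t) * t⁻¹ = t⁻¹ * u := by group
      rw [e1, e2] at h3
      exact h3.symm
    calc u * (x⁻¹ * (t * x * t⁻¹)) = x⁻¹ * ((x * u * x⁻¹) * t) * x * t⁻¹ := by group
      _ = x⁻¹ * (t * (x * u * x⁻¹)) * x * t⁻¹ := by rw [h2]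
      _ = x⁻¹ * t * x * (u * t⁻¹) := by group
      _ = x⁻¹ * t * x * (t⁻¹ * u) := by rw [h1']
      _ = x⁻¹ * (t * x * t⁻¹) * u := by group
  obtain ⟨n, hn, hdn⟩ := h.pow hY2 hCt hd
  have hz : (x⁻¹ * (t * x * t⁻¹)) ^ n ∈ Cz (C ⊓ Y2) ⊓ (C ⊓ Y2) := by
    refine ⟨pow_mem (mem_Cz.2 hdE) n, hdn⟩
  rw [h.ctr (hE.cz.inf h (LN.op hY2))] at hz
  have h7 := h.tf hn (Subgroup.mem_bot.1 hz)
  have h8 : x * (x⁻¹ * (t * x * t⁻¹)) * t = x * 1 * t := by rw [h7]
  have e : x * (x⁻¹ * (t * x * t⁻¹)) * t = t * x := by group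
  rw [e, mul_one] at h8
  exact h8

/-- the key property of closed locally normal subgroups -/
theorem Sys.star (h : Sys Op) {A B : Subgroup G} (hA : LN Op A) (hB : LN Op B) (hAt : A ≠ ⊤)
    (hBb : B ≠ ⊥) (hBc : Cz (Cz B) ≤ B) (hAB : A ⊓ Cz B = ⊥) : A ≤ B := by
  obtain ⟨X, hX, hXA⟩ := hA
  obtain ⟨Y, hY, hYB⟩ := hB
  have h1 : A ⊓ Y ≤ Cz (Cz B ⊓ X) := by
    intro a ha
    obtain ⟨ha1, ha2⟩ := Subgroup.mem_inf.1 ha
    rw [mem_Cz]
    intro b hb
    obtain ⟨hb1, hb2⟩ := Subgroup.mem_inf.1 hb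
    have h2 : b * a * b⁻¹ * a⁻¹ ∈ A ⊓ Cz B := by
      refine Subgroup.mem_inf.2 ⟨mul_mem (hXA b hb2 a ha1) (Subgroup.inv_mem _ ha1), ?_⟩
      have := Subgroup.mul_mem _ hb1 (hYB.cz a ha2 b⁻¹ (Subgroup.inv_mem _ hb1))
      have e : b * (a * b⁻¹ * a⁻¹) = b * a * b⁻¹ * a⁻¹ := by group
      rwa [e] at this
    rw [hAB] at h2
    have h3 := Subgroup.mem_bot.1 h2
    have h4 : b * a * b⁻¹ * a⁻¹ * a * b = 1 * a * b := by rw [h3]
    have e : b * a * b⁻¹ * a⁻¹ * a * b = b * a := by group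
    rw [e, one_mul] at h4
    exact h4
  have h2 : A ⊓ Y ≤ B :=
    (h1.trans (h.cen (LN.cz ⟨Y, hY, hYB⟩) (h.cz_ne_top hBb) hX)).trans hBc
  have h3 : Cz B ≤ Cz A := (Cz_anti h2).trans (h.cen ⟨X, hX, hXA⟩ hAt hY)
  exact ((le_CzCz A).trans (Cz_anti h3)).trans hBc

/-- nontrivial proper closed locally normal subgroups -/
structure Good (Op : Subgroup G → Prop) (A : Subgroup G) : Prop where
  ln : LN Op A
  nb : A ≠ ⊥
  nt : A ≠ ⊤
  cl : Cz (Cz A) ≤ A

theorem Good.cnj (hs : Sys Op) {A : Subgroup G} (h : Good Op A) (g : G) : Good Op (cj g A) where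
  ln := h.ln.cj hs g
  nb := fun hc => h.nb (cj_inj g (by rw [hc, cj_bot]))
  nt := fun hc => h.nt (cj_inj g (by rw [hc, cj_top]))
  cl := by
    rw [← cj_Cz, ← cj_Cz]
    exact cj_mono g h.cl

theorem Good.inf (hs : Sys Op) {A B : Subgroup G} (hA : Good Op A) (hB : LN Op B)
    (hne : A ⊓ Cz B ≠ ⊥) : Good Op (A ⊓ Cz B) where
  ln := hA.ln.inf hs hB.cz
  nb := hne
  nt := fun hc => hA.nt (top_le_iff.1 (hc ▸ inf_le_left))
  cl := le_inf ((Cz_anti (Cz_anti inf_le_left)).trans hA.cl)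
    ((Cz_anti (Cz_anti inf_le_right)).trans (CzCzCz B))

theorem Good.star (hs : Sys Op) {A B : Subgroup G} (hA : Good Op A) (hB : Good Op B)
    (hAB : ¬ A ≤ B) : Good Op (A ⊓ Cz B) :=
  hA.inf hs hB.ln fun hc => hAB (hs.star hA.ln hB.ln hA.nt hB.nb hB.cl hc)

/-- the normalizer -/
def Nz (B : Subgroup G) : Subgroup G where
  carrier := {g | cj g B = B}
  one_mem' := cj_one B
  mul_mem' := by
    intro a b ha hb
    show H47.BT.cj (a * b) B = B
    rw [cj_mul, show H47.BT.cj b B = B from hb, show H47.BT.cj a B = B from ha]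
  inv_mem' := by
    intro a ha
    show H47.BT.cj a⁻¹ B = B
    conv_lhs => rw [← show H47.BT.cj a B = B from ha]
    exact cj_inv_cj a B

theorem mem_Nz {B : Subgroup G} {g : G} : g ∈ Nz B ↔ cj g B = B := Iff.rfl

theorem Nrm.le_Nz {X M : Subgroup G} (h : Nrm X M) : X ≤ Nz M := fun _ hx => h.cj_eq hx

theorem Nz_ne_top (hs : Sys Op) {B : Subgroup G} (h : Good Op B) : Nz B ≠ ⊤ := by
  intro hc
  have hn : B.Normal := by
    refine ⟨fun n hn g => ?_⟩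
    have hg : g ∈ Nz B := by rw [hc]; trivial
    rw [← mem_Nz.1 hg, mem_cj]
    have : g⁻¹ * (g * n * g⁻¹) * g = n := by group
    rwa [this]
  rcases hs.simple B hn with h1 | h1
  · exact h.nb h1
  · exact h.nt h1

theorem Good.opNz (hs : Sys Op) {B : Subgroup G} (h : Good Op B) : Op (Nz B) := by
  obtain ⟨X, hX, hXB⟩ := h.ln
  exact hs.mono hX hXB.le_Nz

/-- good subgroups have smaller good subgroups -/
theorem Good.noatom (hs : Sys Op) {A : Subgroup G} (h : Good Op A) :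
    ∃ A', Good Op A' ∧ A' < A := by
  by_contra hc
  push Not at hc
  have hat : ∀ A', Good Op A' → A' ≤ A → A' = A := fun A' h1 h2 => by
    by_contra hne
    exact hc A' h1 (lt_of_le_of_ne h2 hne)
  have hcomm : ∀ g : G, cj g A = A ∨ cj g A ≤ Cz A := by
    intro g
    by_cases hle : cj g A ≤ A
    · exact Or.inl (hat _ (h.cnj hs g) hle)
    · right
      have h1 := (h.cnj hs g).star hs h hle
      have h2 : cj g⁻¹ (cj g A ⊓ Cz A) ≤ A := by
        have := cj_mono g⁻¹ (inf_le_left : cj g A ⊓ Cz A ≤ cj g A)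
        rwa [cj_inv_cj] at this
      have h3 := hat _ (h1.cnj hs g⁻¹) h2
      have h4 : cj g A ⊓ Cz A = cj g A := by
        rw [← cj_cj_inv g (cj g A ⊓ Cz A), h3]
      rw [← h4]
      exact inf_le_right
  have hle : ∀ g : G, cj g A ≤ Nz A := by
    intro g
    rcases hcomm g with h1 | h1
    · rw [h1]
      intro a ha
      exact (Nrm.self A).cj_eq ha
    · intro a ha
      have ha' := mem_Cz.1 (h1 ha)
      rw [mem_Nz]
      ext x
      rw [mem_cj]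
      constructor
      · intro hx
        have h2 := ha' _ hx
        have h3 : x = a⁻¹ * x * a := by
          have h4 : a * (a⁻¹ * x * a * a) * a⁻¹ * a⁻¹ = a * (a * (a⁻¹ * x * a)) * a⁻¹ * a⁻¹ := by
            rw [h2]
          have e1 : a * (a⁻¹ * x * a * a) * a⁻¹ * a⁻¹ = x := by group
          have e2 : a * (a * (a⁻¹ * x * a)) * a⁻¹ * a⁻¹ = a * x * a⁻¹ := by group
          rw [e1, e2] at h4
          have h5 : a⁻¹ * x * a = a⁻¹ * (a * x * a⁻¹) * a := by rw [← h4]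
          have e3 : a⁻¹ * (a * x * a⁻¹) * a = x := by group
          rw [e3] at h5
          exact h5.symm
        rw [h3]
        exact hx
      · intro hx
        have h2 := ha' _ hx
        have : a⁻¹ * x * a = x := by
          rw [mul_assoc, h2]
          group
        rwa [this]
  have hnc : Subgroup.normalClosure (A : Set G) ≤ Nz A := by
    rw [Subgroup.normalClosure, Subgroup.closure_le]
    intro x hx
    obtain ⟨b, hb, hbx⟩ := Group.mem_conjugatesOfSet_iff.1 hx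
    obtain ⟨c, hc⟩ := isConj_iff.1 hbx
    refine hle c ?_
    rw [mem_cj, ← hc]
    have : c⁻¹ * (c * b * c⁻¹) * c = b := by group
    rw [this]
    exact hb
  rcases hs.simple _ (Subgroup.normalClosure_normal (s := (A : Set G))) with h1 | h1
  · obtain ⟨a, ha, ha1⟩ := exists_ne_one h.nb
    have : a ∈ Subgroup.normalClosure (A : Set G) := Subgroup.subset_normalClosure ha
    rw [h1] at this
    exact ha1 (Subgroup.mem_bot.1 this)
  · rw [h1] at hnc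
    exact Nz_ne_top hs h (top_le_iff.1 hnc)

/-- good subgroups are not conjugate to proper subgroups of themselves -/
theorem Good.nocomp (hs : Sys Op) {A : Subgroup G} (h : Good Op A) (g : G) : ¬ A < cj g A := by
  intro hlt
  obtain ⟨n, hn, hgn⟩ := hs.pow (h.opNz hs) (hs.cyc g) (Subgroup.mem_zpowers g)
  have h1 : ∀ m : ℕ, A < cj (g ^ (m + 1)) A := by
    intro m
    induction m with
    | zero => simpa using hlt
    | succ m ih =>
      have h2 := (cj_lt_iff g).2 ih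
      rw [← cj_mul, ← pow_succ'] at h2
      exact hlt.trans h2
  obtain ⟨m, rfl⟩ := Nat.exists_eq_succ_of_ne_zero hn
  have h2 := h1 m
  rw [show cj (g ^ (m + 1)) A = A from hgn.2] at h2
  exact lt_irrefl _ h2

/-- orbits of proper subgroups on the conjugates are finite -/
theorem Good.orb (hs : Sys Op) {B : Subgroup G} (h : Good Op B) {P : Subgroup G} (hP : P ≠ ⊤)
    (s : G) : {ε | ∃ p ∈ P, ε = cj (p * s) B}.Finite := by
  classical
  have hs' : Good Op (cj s B) := h.cnj hs s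
  have hfin := hs.fin (hs'.opNz hs) hP
  have : (Nz (cj s B)).subgroupOf P |>.FiniteIndex := ⟨hfin⟩
  have : Finite (P ⧸ (Nz (cj s B)).subgroupOf P) := Subgroup.finite_quotient_of_finiteIndex
  refine (Set.finite_range fun c : P ⧸ (Nz (cj s B)).subgroupOf P =>
    cj ((c.out : P) * s) B).subset ?_
  rintro ε ⟨p, hp, rfl⟩
  refine ⟨QuotientGroup.mk (⟨p, hp⟩ : P), ?_⟩
  have h1 : (QuotientGroup.mk (QuotientGroup.mk (⟨p, hp⟩ : P) : P ⧸ (Nz (cj s B)).subgroupOf P).out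
      : P ⧸ (Nz (cj s B)).subgroupOf P) = QuotientGroup.mk (⟨p, hp⟩ : P) :=
    QuotientGroup.out_eq' _
  have h2 := QuotientGroup.eq.1 h1
  rw [Subgroup.mem_subgroupOf] at h2
  have h3 := mem_Nz.1 h2
  show cj (_ * s) B = cj (p * s) B
  rw [cj_mul, cj_mul p s]
  generalize ((QuotientGroup.mk (⟨p, hp⟩ : P) : P ⧸ (Nz (cj s B)).subgroupOf P).out : P) = q at h3
  have h4 : cj (q : G) (cj ((q : G)⁻¹ * p) (cj s B)) = cj (q : G) (cj s B) := by
    have e : ((q⁻¹ * ⟨p, hp⟩ : P) : G) = (q : G)⁻¹ * p := rfl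
    rw [← e, h3]
  rw [← cj_mul, mul_inv_cancel_left] at h4
  exact h4.symm

/-- **No commuting locally normal subgroups** -/
theorem Sys.main (h : Sys Op) {M N : Subgroup G} (hM : LN Op M) (hMb : M ≠ ⊥) (hNb : N ≠ ⊥)
    (hMN : ∀ m ∈ M, ∀ n ∈ N, m * n = n * m) : False := by
  classical
  let B : Subgroup G := Cz M
  have hB : Good Op B := by
    refine ⟨hM.cz, ?_, h.cz_ne_top hMb, CzCzCz M⟩
    intro hc
    obtain ⟨x, hx, hx1⟩ := exists_ne_one hNb
    have : x ∈ B := mem_Cz.2 fun m hm => hMN m hm x hx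
    rw [hc] at this
    exact hx1 (Subgroup.mem_bot.1 this)
  let P := Nz B
  have hPt : P ≠ ⊤ := Nz_ne_top h hB
  have hPo : Op P := hB.opNz h
  obtain ⟨S, hS1, hS2⟩ := h.fg
  let S' : Set G := S ∪ S⁻¹
  have hS' : S'.Finite := hS2.union hS2.inv
  let B1 : Set (Subgroup G) := ⋃ s ∈ S', {ε | ∃ p ∈ P, ε = cj (p * s) B}
  have hB1 : B1.Finite := hS'.biUnion fun s _ => hB.orb h hPt s
  have hB1g : ∀ ε ∈ B1, Good Op ε := by
    intro ε hε
    simp only [B1, Set.mem_iUnion] at hε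
    obtain ⟨s, _, p, _, rfl⟩ := hε
    exact hB.cnj h _
  have hB1P : ∀ ε ∈ B1, ∀ x ∈ P, cj x ε ∈ B1 := by
    intro ε hε x hx
    simp only [B1, Set.mem_iUnion] at hε ⊢
    obtain ⟨s, hs, p, hp, rfl⟩ := hε
    exact ⟨s, hs, x * p, mul_mem hx hp, by rw [← cj_mul, mul_assoc]⟩
  let D : Set (Subgroup G) := {δ | Good Op δ ∧ ∃ ε ∈ B1, ∃ ε' ∈ B1, δ = ε ⊓ Cz ε'}
  have hD : D.Finite := by
    refine ((hB1.prod hB1).image fun q : Subgroup G × Subgroup G => q.1 ⊓ Cz q.2).subset ?_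
    rintro δ ⟨_, ε, hε, ε', hε', rfl⟩
    exact ⟨(ε, ε'), ⟨hε, hε'⟩, rfl⟩
  have key : ∀ A, Good Op A → ∃ g : G, ∃ δ ∈ D, δ ≤ cj g A := by
    intro A hA
    obtain ⟨y0, hy0, hy01⟩ := exists_ne_one hA.nb
    obtain ⟨n, hn, hyn⟩ := h.pow hPo hA.nt hy0
    set y := y0 ^ n with hy
    have hy1 : y ≠ 1 := fun hc => hy01 (h.tf hn hc)
    have hex : ∃ g : G, g⁻¹ * y * g ∈ P ∧ ∃ s ∈ S', g⁻¹ * y * g ∉ cj s P := by
      by_contra hc
      push Not at hc
      have hall : ∀ g : G, g⁻¹ * y * g ∈ P := by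
        intro g
        have hg : g ∈ Subgroup.closure S := by rw [hS1]; trivial
        induction hg using Subgroup.closure_induction_right with
        | one => simpa using hyn.2
        | mul_right x _ s hs ih =>
          have := mem_cj.1 (hc x ih s (Or.inl hs))
          have e : (x * s)⁻¹ * y * (x * s) = s⁻¹ * (x⁻¹ * y * x) * s := by group
          rwa [e]
        | mul_inv_cancel x _ s hs ih =>
          have := mem_cj.1 (hc x ih s⁻¹ (Or.inr (Set.inv_mem_inv.2 hs)))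
          have e : (x * s⁻¹)⁻¹ * y * (x * s⁻¹) = s⁻¹⁻¹ * (x⁻¹ * y * x) * s⁻¹ := by group
          rwa [e]
      have hnc : Subgroup.normalClosure {y} ≤ P := by
        rw [Subgroup.normalClosure, Subgroup.closure_le]
        intro x hx
        obtain ⟨b, hb, hbx⟩ := Group.mem_conjugatesOfSet_iff.1 hx
        obtain ⟨c, hc⟩ := isConj_iff.1 hbx
        rw [Set.mem_singleton_iff.1 hb] at hc
        have := hall c⁻¹
        rw [inv_inv, hc] at this
        exact this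
      rcases h.simple _ (Subgroup.normalClosure_normal (s := ({y} : Set G))) with h1 | h1
      · have : y ∈ Subgroup.normalClosure {y} := Subgroup.subset_normalClosure rfl
        rw [h1] at this
        exact hy1 (Subgroup.mem_bot.1 this)
      · rw [h1] at hnc
        exact hPt (top_le_iff.1 hnc)
    obtain ⟨g, hgP, s, hs, hgs⟩ := hex
    set x := g⁻¹ * y * g with hx
    let A' := cj g⁻¹ A
    have hA' : Good Op A' := hA.cnj h g⁻¹
    have hxA' : x ∈ A' := by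
      rw [mem_cj, inv_inv]
      have e : g * x * g⁻¹ = y := by rw [hx]; group
      rw [e]
      exact hyn.1
    let ε := cj s B
    have hε1 : ε ∈ B1 := by
      simp only [B1, Set.mem_iUnion]
      exact ⟨s, hs, 1, one_mem _, by rw [one_mul]⟩
    have hεx : cj x ε ≠ ε := by
      intro hc
      apply hgs
      rw [mem_cj, mem_Nz, cj_mul, cj_mul, show cj s B = ε from rfl, hc]
      exact cj_inv_cj s B
    have hεg := hB1g ε hε1
    refine ⟨g⁻¹, ?_⟩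
    -- the two cases
    have fin : ∀ w ∈ A', ∀ δ : Subgroup G, Good Op δ → δ ⊓ cj w δ = ⊥ → δ ≤ A' := by
      intro w hw δ hδ hdis
      refine h.star hδ.ln hA'.ln hδ.nt hA'.nb hA'.cl ?_
      rw [Subgroup.eq_bot_iff_forall]
      intro z hz
      obtain ⟨hz1, hz2⟩ := Subgroup.mem_inf.1 hz
      have : z ∈ δ ⊓ cj w δ := by
        refine Subgroup.mem_inf.2 ⟨hz1, ?_⟩
        rw [mem_cj]
        have h1 := mem_Cz.1 hz2 w hw
        have h2 : w⁻¹ * z * w = z := by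
          rw [mul_assoc, ← h1]
          group
        rwa [h2]
      rw [hdis] at this
      exact Subgroup.mem_bot.1 this
    have two : ∀ w ∈ A', w ∈ P → ¬ ε ≤ cj w ε → ∃ δ ∈ D, δ ≤ A' := by
      intro w hw hwP hnle
      have hg1 := hεg.star h (hεg.cnj h w) hnle
      refine ⟨_, ⟨hg1, ε, hε1, _, hB1P ε hε1 w hwP, rfl⟩, fin w hw _ hg1 ?_⟩
      rw [Subgroup.eq_bot_iff_forall]
      intro z hz
      obtain ⟨hz1, hz2⟩ := Subgroup.mem_inf.1 hz
      have hz3 : z ∈ Cz (cj w ε) ⊓ cj w ε := by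
        refine Subgroup.mem_inf.2 ⟨hz1.2, ?_⟩
        rw [mem_cj] at hz2 ⊢
        exact hz2.1
      rw [h.ctr (hεg.cnj h w).ln] at hz3
      exact Subgroup.mem_bot.1 hz3
    by_cases hc : ε ≤ cj x ε
    · refine two x⁻¹ (inv_mem hxA') (inv_mem hgP) fun hc' => hεx ?_
      refine le_antisymm ?_ hc
      have := cj_mono x hc'
      rwa [cj_cj_inv] at this
    · exact two x hxA' hgP hc
  -- the cycle
  obtain ⟨g0, δ0, hδ0, _⟩ := key B hB
  have hfin : Finite D := hD.to_subtype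
  let r : D → D → Prop := fun a b => ∃ g : G, (a : Subgroup G) < cj g (b : Subgroup G)
  have htr : IsTrans D r := ⟨by
    rintro a b c ⟨g, hg⟩ ⟨k, hk⟩
    refine ⟨g * k, hg.trans ?_⟩
    rw [cj_mul]
    exact (cj_lt_iff g).2 hk⟩
  have hirr : Std.Irrefl r := ⟨by
    rintro a ⟨g, hg⟩
    exact a.2.1.nocomp h g hg⟩
  have hwf := Finite.wellFounded_of_trans_of_irrefl r
  obtain ⟨m, _, hm⟩ := hwf.has_min Set.univ ⟨(⟨δ0, hδ0⟩ : D), trivial⟩
  obtain ⟨A', hA', hlt⟩ := m.2.1.noatom h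
  obtain ⟨g, δ, hδ, hle⟩ := key A' hA'
  exact hm ⟨δ, hδ⟩ trivial ⟨g, lt_of_le_of_lt hle ((cj_lt_iff g).2 hlt)⟩

end H47.BT
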